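import Pool.Agent.H25.DP.Targets
import Pool.Agent.H9.MR.GM

/-!
# (MV) mean value theorem for Dirichlet polynomials
-/

set_option autoImplicit false

open Complex MeasureTheory Set
open Pool.Agent.H24.MR (nit)
open Pool.Agent.H25.DL
open Pool.Agent.H25.DP

namespace Pool.Agent.H56.DP

theorem norm_nit (n : ℕ) (u : ℝ) : ‖nit n u‖ = 1 := by
  unfold nit
  have : (-((u * Real.log n : ℝ) : ℂ) * Complex.I) = ((-(u * Real.log n) : ℝ) : ℂ) * Complex.I := by
    push_cast; ring
  rw [this, Complex.norm_exp_ofReal_mul_I]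

theorem norm_en (n : ℕ) (u : ℝ) : ‖en n u‖ = 1 := by
  unfold en
  rw [Complex.norm_exp_ofReal_mul_I]

theorem continuous_nit (n : ℕ) : Continuous (nit n) := by
  unfold nit
  fun_prop

theorem en_add (n : ℕ) (s t : ℝ) : en n (s + t) = en n s * nit n t := by
  unfold en nit
  rw [← Complex.exp_add]
  congr 1
  push_cast
  ring

theorem mv : T_MV := by
  intro a K ha
  set K0 : ℝ := 3 * (Real.sqrt Real.pi * Real.exp 1) with hK0
  have hK0p : 0 < K0 := by positivity
  refine ⟨a⁻¹ * (Real.exp 1 * (K0 * (K * (a + 4 + K)))) + 1, by positivity, ?_⟩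
  intro N A c hN hc H W hW
  have hA : 0 ≤ A := (norm_nonneg _).trans (hc 0)
  set S := Finset.Ico N (K * N) with hS
  set c' : ℕ → ℂ := fun n => c n * en n (a * H) with hc'
  set F : ℝ → ℝ := fun u => ‖∑ m ∈ S, c' m * nit m u‖ ^ 2 with hF
  have hFc : Continuous F := by
    have : Continuous fun u => ∑ m ∈ S, c' m * nit m u :=
      continuous_finsetSum _ fun m _ => continuous_const.mul (continuous_nit m)
    exact this.norm.pow 2
  have hF0 : ∀ u, 0 ≤ F u := fun u => by positivity
  have hW0 : 0 < W := by linarith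
  have e1 : ∫ t in H..(H + W), ‖∑ n ∈ S, c n * en n (a * t)‖ ^ 2 =
      ∫ x in (0 : ℝ)..W, F (a * x) := by
    have := intervalIntegral.integral_comp_add_left (a := 0) (b := W)
      (fun t => ‖∑ n ∈ S, c n * en n (a * t)‖ ^ 2) H
    rw [add_zero] at this
    rw [← this]
    congr 1
    funext x
    simp only [hF, hc']
    congr 2
    refine Finset.sum_congr rfl fun n _ => ?_
    rw [mul_add, en_add, mul_assoc]
  rw [e1, intervalIntegral.integral_comp_mul_left _ ha.ne', mul_zero, smul_eq_mul]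
  set T' : ℝ := a * W + 4 with hT'
  have hT'4 : 4 ≤ T' := by
    have : 0 < a * W := by positivity
    rw [hT']; linarith
  have hT'0 : 0 < T' := by linarith
  have hbd : ∃ B, ∀ u, F u ≤ B := by
    refine ⟨(∑ m ∈ S, ‖c' m‖) ^ 2, fun u => ?_⟩
    refine pow_le_pow_left₀ (norm_nonneg _) ?_ 2
    refine (norm_sum_le _ _).trans (Finset.sum_le_sum fun m _ => ?_)
    rw [norm_mul, norm_nit, mul_one]
  obtain ⟨B, hB⟩ := hbd
  have hgint : Integrable (Pool.Agent.H24.MR.GM.gw T') := Pool.Agent.H24.MR.GM.gw_integrable hT'0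
  have hgw0 : ∀ u, 0 ≤ Pool.Agent.H24.MR.GM.gw T' u := fun u => (Real.exp_pos _).le
  have hint : Integrable fun u => F u * Pool.Agent.H24.MR.GM.gw T' u := by
    refine hgint.bdd_mul hFc.aestronglyMeasurable (Filter.Eventually.of_forall fun u => ?_) (c := B)
    rw [Real.norm_of_nonneg (hF0 u)]
    exact hB u
  have h2 : ∫ u in (0 : ℝ)..(a * W), F u ≤
      Real.exp 1 * ∫ u : ℝ, F u * Pool.Agent.H24.MR.GM.gw T' u := by
    rw [← integral_const_mul, intervalIntegral.integral_of_le (by positivity)]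
    refine (setIntegral_mono_on (hFc.integrableOn_Icc.mono_set Ioc_subset_Icc_self)
      ((hint.const_mul _).integrableOn) measurableSet_Ioc fun u hu => ?_).trans
      (setIntegral_le_integral (hint.const_mul _) (Filter.Eventually.of_forall fun u => ?_))
    · have h3 : (u / T') ^ 2 ≤ 1 := by
        have h4 : u / T' ≤ 1 := by
          rw [div_le_one hT'0, hT']
          have := hu.2
          linarith
        have h5 : 0 ≤ u / T' := div_nonneg hu.1.le hT'0.le
        nlinarith
      have h4 : 1 ≤ Real.exp 1 * Pool.Agent.H24.MR.GM.gw T' u := by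
        unfold Pool.Agent.H24.MR.GM.gw
        rw [← Real.exp_add]
        exact Real.one_le_exp (by linarith)
      calc F u = F u * 1 := (mul_one _).symm
        _ ≤ F u * (Real.exp 1 * Pool.Agent.H24.MR.GM.gw T' u) := mul_le_mul_of_nonneg_left h4 (hF0 u)
        _ = _ := by ring
    · exact mul_nonneg (Real.exp_pos 1).le (mul_nonneg (hF0 u) (hgw0 u))
  have h3 := Pool.Agent.H24.MR.GM.main hT'4 S c' (fun n hn => by
    rw [hS, Finset.mem_Ico] at hn
    omega)
  have hN1 : (1 : ℝ) ≤ N := by exact_mod_cast hN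
  have h4 : ∑ n ∈ S, ‖c' n‖ ^ 2 * (T' + n) ≤ (K * N) * (A ^ 2 * ((a + 4 + K) * (W + N))) := by
    have h5 : ∀ n ∈ S, ‖c' n‖ ^ 2 * (T' + n) ≤ A ^ 2 * ((a + 4 + K) * (W + N)) := by
      intro n hn
      rw [hS, Finset.mem_Ico] at hn
      have h6 : (n : ℝ) ≤ K * N := by exact_mod_cast hn.2.le
      have h7 : ‖c' n‖ ≤ A := by
        rw [hc', norm_mul, norm_en, mul_one]
        exact hc n
      have h8 : ‖c' n‖ ^ 2 ≤ A ^ 2 := pow_le_pow_left₀ (norm_nonneg _) h7 2
      have hK : (0 : ℝ) ≤ K := Nat.cast_nonneg K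
      have h9 : T' + n ≤ (a + 4 + K) * (W + N) := by
        rw [hT']
        have p1 : 0 ≤ a * N := by positivity
        have p2 : 0 ≤ K * W := by positivity
        nlinarith
      exact mul_le_mul h8 h9 (by positivity) (by positivity)
    refine (Finset.sum_le_sum h5).trans ?_
    rw [Finset.sum_const, nsmul_eq_mul]
    have h6 : (S.card : ℝ) ≤ K * N := by
      rw [hS, Nat.card_Ico]
      exact_mod_cast Nat.sub_le _ _
    exact mul_le_mul_of_nonneg_right h6 (by positivity)
  have h5 : a⁻¹ * ∫ u in (0 : ℝ)..(a * W), F u ≤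
      a⁻¹ * (Real.exp 1 * (K0 * ((K * N) * (A ^ 2 * ((a + 4 + K) * (W + N)))))) := by
    refine mul_le_mul_of_nonneg_left (h2.trans (mul_le_mul_of_nonneg_left
      (h3.trans (mul_le_mul_of_nonneg_left h4 hK0p.le)) (Real.exp_pos 1).le)) (by positivity)
  refine h5.trans ?_
  have h6 : 0 ≤ A ^ 2 * N * (W + N) := by positivity
  calc a⁻¹ * (Real.exp 1 * (K0 * ((K * N) * (A ^ 2 * ((a + 4 + K) * (W + N))))))
      = (a⁻¹ * (Real.exp 1 * (K0 * (K * (a + 4 + K))))) * (A ^ 2 * N * (W + N)) := by ring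
    _ ≤ (a⁻¹ * (Real.exp 1 * (K0 * (K * (a + 4 + K)))) + 1) * (A ^ 2 * N * (W + N)) :=
        mul_le_mul_of_nonneg_right (by linarith) h6
    _ = _ := by ring

end Pool.Agent.H56.DP
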