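import Pool.Agent.H25.DP.Targets

/-!
# (SB) the sum over all pairs
-/

set_option autoImplicit false

open Pool.Agent.H25.DP

namespace Pool.Agent.H56.DP

theorem term_le {δ x : ℝ} (hδ : 0 < δ) (hx : 0 ≤ x) {I : ℕ} (hI : 1 ≤ 2 ^ I * δ) :
    (δ / (δ + x)) ^ 2 ≤
      ∑ i ∈ Finset.range (I + 1), (if x ≤ min (2 ^ i * δ) 1 then 4 * (1 / 4 : ℝ) ^ i else 0) +
        δ ^ 2 := by
  have hterm : ∀ i ∈ Finset.range (I + 1),
      (0 : ℝ) ≤ (if x ≤ min (2 ^ i * δ) 1 then 4 * (1 / 4 : ℝ) ^ i else 0) := by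
    intro i _
    split_ifs
    · positivity
    · exact le_rfl
  have hδx : 0 < δ + x := by linarith
  by_cases h1 : x ≤ 1
  · have hex : ∃ i : ℕ, x ≤ 2 ^ i * δ := ⟨I, h1.trans hI⟩
    classical
    set i := Nat.find hex with hi
    have hi1 : x ≤ 2 ^ i * δ := Nat.find_spec hex
    have hi2 : i ≤ I := Nat.find_min' hex (h1.trans hI)
    have hmain : (δ / (δ + x)) ^ 2 ≤ 4 * (1 / 4 : ℝ) ^ i := by
      rcases Nat.eq_zero_or_pos i with h0 | h0
      · rw [h0, pow_zero]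
        have h2 : δ / (δ + x) ≤ 1 := by
          rw [div_le_one hδx]
          linarith
        have h3 : 0 ≤ δ / (δ + x) := by positivity
        nlinarith
      · obtain ⟨k, hk⟩ : ∃ k, i = k + 1 := ⟨i - 1, by omega⟩
        have h2 : ¬ x ≤ 2 ^ k * δ := Nat.find_min hex (by omega)
        rw [not_le] at h2
        have h3 : δ / (δ + x) ≤ (1 / 2 : ℝ) ^ k := by
          rw [div_le_iff₀ hδx]
          have h4 : (1 / 2 : ℝ) ^ k * (2 ^ k * δ) = δ := by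
            rw [← mul_assoc, ← mul_pow]
            norm_num
          have h5 : (0 : ℝ) < (1 / 2 : ℝ) ^ k := by positivity
          have h6 : (1 / 2 : ℝ) ^ k * (2 ^ k * δ) ≤ (1 / 2 : ℝ) ^ k * (δ + x) :=
            mul_le_mul_of_nonneg_left (by linarith) h5.le
          linarith
        have h4 : 0 ≤ δ / (δ + x) := by positivity
        calc (δ / (δ + x)) ^ 2 ≤ ((1 / 2 : ℝ) ^ k) ^ 2 := pow_le_pow_left₀ h4 h3 2
          _ = (1 / 4 : ℝ) ^ k := by rw [← pow_mul, mul_comm, pow_mul]; norm_num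
          _ = 4 * (1 / 4 : ℝ) ^ i := by rw [hk, pow_succ]; ring
    have h3 : (δ / (δ + x)) ^ 2 ≤
        ∑ i ∈ Finset.range (I + 1), (if x ≤ min (2 ^ i * δ) 1 then 4 * (1 / 4 : ℝ) ^ i else 0) := by
      refine le_trans ?_ (Finset.single_le_sum hterm (Finset.mem_range.mpr (by omega : i < I + 1)))
      rw [if_pos (le_min hi1 h1)]
      exact hmain
    have h4 : 0 ≤ δ ^ 2 := by positivity
    linarith
  · rw [not_le] at h1
    have h2 : δ / (δ + x) ≤ δ := by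
      rw [div_le_iff₀ hδx]
      nlinarith
    have h3 : 0 ≤ δ / (δ + x) := by positivity
    have h4 : (δ / (δ + x)) ^ 2 ≤ δ ^ 2 := pow_le_pow_left₀ h3 h2 2
    have h5 := Finset.sum_nonneg hterm
    linarith

theorem sb (h : T_CT) : T_SB := by
  intro a b K ha hb
  obtain ⟨C, hC, hCT⟩ := h a b K ha hb
  refine ⟨8 * C + K ^ 2, by positivity, ?_⟩
  intro N M L δ hN hM hδ hδ1
  obtain ⟨I, hI⟩ : ∃ I : ℕ, 1 ≤ 2 ^ I * δ := by
    obtain ⟨I, hI⟩ := exists_nat_gt (1 / δ)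
    refine ⟨I, ?_⟩
    have h1 : (I : ℝ) < 2 ^ I := by exact_mod_cast Nat.lt_two_pow_self
    have h2 : 1 / δ < 2 ^ I := hI.trans h1
    rw [div_lt_iff₀ hδ] at h2
    exact h2.le
  set Pr := Finset.Ico N (K * N) ×ˢ Finset.Ico M (K * M) with hPr
  set x : ℕ × ℕ → ℝ := fun p => |L - (a * Real.log p.1 + b * Real.log p.2)| with hx
  set S : ℝ := (N : ℝ) * M with hS
  have hN1 : (1 : ℝ) ≤ N := by exact_mod_cast hN
  have hM1 : (1 : ℝ) ≤ M := by exact_mod_cast hM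
  have hS1 : 1 ≤ S := by rw [hS]; nlinarith
  have hS0 : 0 < S := by linarith
  set Y : ℝ := S ^ (1 / 3 : ℝ) + S ^ (3 / 4 : ℝ) * δ ^ (1 / 2 : ℝ) + S * δ with hY
  have hY0 : 0 < Y := by positivity
  have e1 : ∑ n ∈ Finset.Ico N (K * N), ∑ m ∈ Finset.Ico M (K * M),
      (δ / (δ + |L - (a * Real.log n + b * Real.log m)|)) ^ 2 =
      ∑ p ∈ Pr, (δ / (δ + x p)) ^ 2 := by
    rw [hPr, Finset.sum_product]
  rw [e1]
  have h1 : ∑ p ∈ Pr, (δ / (δ + x p)) ^ 2 ≤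
      ∑ i ∈ Finset.range (I + 1), 4 * (1 / 4 : ℝ) ^ i *
        ((Pr.filter fun p => x p ≤ min (2 ^ i * δ) 1).card : ℝ) + Pr.card * δ ^ 2 := by
    refine (Finset.sum_le_sum fun p _ => term_le hδ (abs_nonneg _) hI).trans (le_of_eq ?_)
    rw [Finset.sum_add_distrib, Finset.sum_const, nsmul_eq_mul, Finset.sum_comm]
    congr 1
    refine Finset.sum_congr rfl fun i _ => ?_
    rw [← Finset.sum_filter, Finset.sum_const, nsmul_eq_mul, mul_comm]
  refine h1.trans ?_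
  have h2 : ∀ i : ℕ, ((Pr.filter fun p => x p ≤ min (2 ^ i * δ) 1).card : ℝ) ≤ C * (2 ^ i * Y) := by
    intro i
    have h3 : 0 < min (2 ^ i * δ) 1 := lt_min (by positivity) one_pos
    have h4 := hCT N M L (min (2 ^ i * δ) 1) hN hM h3 (min_le_right _ _)
    have h5 : (Pr.filter fun p => x p ≤ min (2 ^ i * δ) 1) =
        ((Finset.Ico N (K * N) ×ˢ Finset.Ico M (K * M)).filter fun p : ℕ × ℕ =>
          |a * Real.log p.1 + b * Real.log p.2 - L| ≤ min (2 ^ i * δ) 1) := by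
      rw [hPr]
      refine Finset.filter_congr fun p _ => ?_
      rw [hx, abs_sub_comm]
    rw [h5]
    refine h4.trans (mul_le_mul_of_nonneg_left ?_ hC.le)
    have h6 : (1 : ℝ) ≤ 2 ^ i := one_le_pow₀ (by norm_num)
    have h7 : min (2 ^ i * δ) 1 ≤ 2 ^ i * δ := min_le_left _ _
    have h8 : (min (2 ^ i * δ) 1) ^ (1 / 2 : ℝ) ≤ 2 ^ i * δ ^ (1 / 2 : ℝ) := by
      refine (Real.rpow_le_rpow h3.le h7 (by norm_num)).trans ?_
      rw [Real.mul_rpow (by positivity) hδ.le]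
      refine mul_le_mul_of_nonneg_right ?_ (by positivity)
      calc ((2 : ℝ) ^ i) ^ (1 / 2 : ℝ) ≤ ((2 : ℝ) ^ i) ^ (1 : ℝ) :=
            Real.rpow_le_rpow_of_exponent_le h6 (by norm_num)
        _ = 2 ^ i := Real.rpow_one _
    have h9 : S ^ (1 / 3 : ℝ) ≤ 2 ^ i * S ^ (1 / 3 : ℝ) :=
      le_mul_of_one_le_left (by positivity) h6
    have h10 : S ^ (3 / 4 : ℝ) * (min (2 ^ i * δ) 1) ^ (1 / 2 : ℝ) ≤
        S ^ (3 / 4 : ℝ) * (2 ^ i * δ ^ (1 / 2 : ℝ)) :=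
      mul_le_mul_of_nonneg_left h8 (by positivity)
    have h11 : S * min (2 ^ i * δ) 1 ≤ S * (2 ^ i * δ) := mul_le_mul_of_nonneg_left h7 hS0.le
    calc S ^ (1 / 3 : ℝ) + S ^ (3 / 4 : ℝ) * (min (2 ^ i * δ) 1) ^ (1 / 2 : ℝ) +
          S * min (2 ^ i * δ) 1
        ≤ 2 ^ i * S ^ (1 / 3 : ℝ) + S ^ (3 / 4 : ℝ) * (2 ^ i * δ ^ (1 / 2 : ℝ)) +
          S * (2 ^ i * δ) := by linarith
      _ = 2 ^ i * Y := by rw [hY]; ring
  have h3 : ∑ i ∈ Finset.range (I + 1), 4 * (1 / 4 : ℝ) ^ i *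
      ((Pr.filter fun p => x p ≤ min (2 ^ i * δ) 1).card : ℝ) ≤ 8 * C * Y := by
    have h4 : ∑ i ∈ Finset.range (I + 1), 4 * (1 / 4 : ℝ) ^ i *
        ((Pr.filter fun p => x p ≤ min (2 ^ i * δ) 1).card : ℝ) ≤
        ∑ i ∈ Finset.range (I + 1), (4 * C * Y) * (1 / 2 : ℝ) ^ i := by
      refine Finset.sum_le_sum fun i _ => ?_
      refine (mul_le_mul_of_nonneg_left (h2 i) (by positivity)).trans (le_of_eq ?_)
      have h5 : (1 / 4 : ℝ) ^ i * 2 ^ i = (1 / 2 : ℝ) ^ i := by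
        rw [← mul_pow]; norm_num
      rw [← h5]
      ring
    refine h4.trans ?_
    rw [← Finset.mul_sum]
    have h5 : ∑ i ∈ Finset.range (I + 1), (1 / 2 : ℝ) ^ i ≤ 2 := by
      have := sum_geometric_two_le (I + 1)
      simpa using this
    have h6 : 0 ≤ 4 * C * Y := by positivity
    calc 4 * C * Y * ∑ i ∈ Finset.range (I + 1), (1 / 2 : ℝ) ^ i ≤ 4 * C * Y * 2 :=
          mul_le_mul_of_nonneg_left h5 h6
      _ = 8 * C * Y := by ring
  have h4 : (Pr.card : ℝ) * δ ^ 2 ≤ K ^ 2 * Y := by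
    have h5 : (Pr.card : ℝ) ≤ K ^ 2 * S := by
      rw [hPr, Finset.card_product, Nat.card_Ico, Nat.card_Ico]
      have h6 : (K * N - N) * (K * M - M) ≤ (K * N) * (K * M) :=
        Nat.mul_le_mul (Nat.sub_le _ _) (Nat.sub_le _ _)
      calc (((K * N - N) * (K * M - M) : ℕ) : ℝ) ≤ (((K * N) * (K * M) : ℕ) : ℝ) := by
            exact_mod_cast h6
        _ = K ^ 2 * S := by rw [hS]; push_cast; ring
    have h6 : δ ^ 2 ≤ δ := by nlinarith
    calc (Pr.card : ℝ) * δ ^ 2 ≤ (K ^ 2 * S) * δ := mul_le_mul h5 h6 (by positivity) (by positivity)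
      _ = K ^ 2 * (S * δ) := by ring
      _ ≤ K ^ 2 * Y := by
          refine mul_le_mul_of_nonneg_left ?_ (by positivity)
          rw [hY]
          have : 0 ≤ S ^ (1 / 3 : ℝ) + S ^ (3 / 4 : ℝ) * δ ^ (1 / 2 : ℝ) := by positivity
          linarith
  calc _ ≤ 8 * C * Y + K ^ 2 * Y := add_le_add h3 h4
    _ = (8 * C + K ^ 2) * Y := by ring

end Pool.Agent.H56.DP
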