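import Pool.Agent.H31.DP.Targets

/-!
# (KA) the sum over the residue classes
-/

set_option autoImplicit false

open Finset

namespace Pool.Agent.H56.DP

open Pool.Agent.H31.DP

/-- the residue `r` of `y` -/
theorem ka_res {D : ℕ} (hD : 0 < D) (y : ℤ) :
    ∃ r ∈ Finset.range D, (D : ℤ) ∣ y - (r : ℤ) ∧
      ∀ r' ∈ Finset.range D, (D : ℤ) ∣ y - (r' : ℤ) → r' = r := by
  have hD0 : (0 : ℤ) < D := by exact_mod_cast hD
  have h0 : 0 ≤ y % (D : ℤ) := Int.emod_nonneg _ hD0.ne'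
  have h1 : y % (D : ℤ) < D := Int.emod_lt_of_pos _ hD0
  have h2 : ((y % (D : ℤ)).toNat : ℤ) = y % (D : ℤ) := Int.toNat_of_nonneg h0
  have h3 : (D : ℤ) ∣ y - ((y % (D : ℤ)).toNat : ℤ) := by
    rw [h2]
    exact Int.dvd_self_sub_emod
  refine ⟨(y % (D : ℤ)).toNat, ?_, h3, ?_⟩
  · rw [Finset.mem_range]
    omega
  · intro r' hr' hd
    rw [Finset.mem_range] at hr'
    have h4 : (D : ℤ) ∣ ((y % (D : ℤ)).toNat : ℤ) - (r' : ℤ) := by
      have h5 := dvd_sub hd h3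
      have e : y - (r' : ℤ) - (y - ((y % (D : ℤ)).toNat : ℤ)) =
          ((y % (D : ℤ)).toNat : ℤ) - (r' : ℤ) := by ring
      rwa [e] at h5
    have h6 : ((y % (D : ℤ)).toNat : ℤ) - (r' : ℤ) = 0 := by
      apply Int.eq_zero_of_abs_lt_dvd h4
      rw [abs_lt]
      constructor <;> omega
    omega

theorem pf_KA : StatementKA := by
  intro a M D hD
  classical
  have h1 : ∀ r : ℕ, ((‖cls a M D r‖ ^ 2 : ℝ) : ℂ) =
      ∑ y ∈ Finset.Icc (1 : ℤ) M, ∑ y' ∈ Finset.Icc (1 : ℤ) M,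
        if ((D : ℤ) ∣ y - (r : ℤ) ∧ (D : ℤ) ∣ y' - (r : ℤ)) then
          (starRingEnd ℂ) (a y) * a y' else 0 := by
    intro r
    have e1 : ((‖cls a M D r‖ ^ 2 : ℝ) : ℂ) = (starRingEnd ℂ) (cls a M D r) * cls a M D r := by
      rw [Complex.conj_mul']
      push_cast
      rfl
    rw [e1]
    unfold cls
    rw [map_sum, Finset.sum_mul_sum, Finset.sum_filter]
    refine Finset.sum_congr rfl fun y _ => ?_
    by_cases hy : (D : ℤ) ∣ y - (r : ℤ)
    · rw [if_pos hy, Finset.sum_filter]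
      refine Finset.sum_congr rfl fun y' _ => ?_
      by_cases hy' : (D : ℤ) ∣ y' - (r : ℤ)
      · rw [if_pos hy', if_pos ⟨hy, hy'⟩]
      · rw [if_neg hy', if_neg fun h => hy' h.2]
    · rw [if_neg hy]
      symm
      refine Finset.sum_eq_zero fun y' _ => ?_
      rw [if_neg fun h => hy h.1]
  have h2 : ∀ y y' : ℤ, (∑ r ∈ Finset.range D,
      if ((D : ℤ) ∣ y - (r : ℤ) ∧ (D : ℤ) ∣ y' - (r : ℤ)) then
        (starRingEnd ℂ) (a y) * a y' else 0) =
      if (D : ℤ) ∣ y' - y then (starRingEnd ℂ) (a y) * a y' else 0 := by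
    intro y y'
    obtain ⟨r, hr, hr1, hr2⟩ := ka_res hD y
    rw [Finset.sum_eq_single_of_mem r hr]
    · have h3 : ((D : ℤ) ∣ y - (r : ℤ) ∧ (D : ℤ) ∣ y' - (r : ℤ)) ↔ (D : ℤ) ∣ y' - y := by
        constructor
        · rintro ⟨h4, h5⟩
          have h6 := dvd_sub h5 h4
          have e : y' - (r : ℤ) - (y - (r : ℤ)) = y' - y := by ring
          rwa [e] at h6
        · intro h4
          refine ⟨hr1, ?_⟩
          have h6 := dvd_add h4 hr1
          have e : y' - y + (y - (r : ℤ)) = y' - (r : ℤ) := by ring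
          rwa [e] at h6
      by_cases h4 : (D : ℤ) ∣ y' - y
      · rw [if_pos h4, if_pos (h3.2 h4)]
      · rw [if_neg h4, if_neg fun h => h4 (h3.1 h)]
    · intro r' hr' hne
      rw [if_neg fun h => hne (hr2 r' hr' h.1)]
  have h3 : ((∑ r ∈ Finset.range D, ‖cls a M D r‖ ^ 2 : ℝ) : ℂ) =
      ∑ y ∈ Finset.Icc (1 : ℤ) M, ∑ y' ∈ Finset.Icc (1 : ℤ) M,
        if (D : ℤ) ∣ y' - y then (starRingEnd ℂ) (a y) * a y' else 0 := by
    rw [Complex.ofReal_sum, Finset.sum_congr rfl fun r _ => h1 r, Finset.sum_comm]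
    refine Finset.sum_congr rfl fun y _ => ?_
    rw [Finset.sum_comm]
    exact Finset.sum_congr rfl fun y' _ => h2 y y'
  rw [h3]
  have h4 : ∑ s ∈ mul D M, corr a M s = ∑ s ∈ mul D M, ∑ y ∈ Finset.Icc (1 : ℤ) M,
      if 1 ≤ y + s ∧ y + s ≤ M then (starRingEnd ℂ) (a y) * a (y + s) else 0 := by
    refine Finset.sum_congr rfl fun s _ => ?_
    unfold corr IM
    rw [Finset.sum_filter]
  rw [h4]
  unfold mul
  conv_rhs => rw [Finset.sum_comm]
  refine Finset.sum_congr rfl fun y hy => ?_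
  rw [← Finset.sum_filter, ← Finset.sum_filter, Finset.filter_filter]
  rw [Finset.mem_Icc] at hy
  refine Finset.sum_bij' (fun y' _ => y' - y) (fun s _ => y + s) ?_ ?_ ?_ ?_ ?_
  · intro y' hy'
    rw [Finset.mem_filter, Finset.mem_Icc] at hy'
    rw [Finset.mem_filter, Finset.mem_Icc]
    refine ⟨⟨by omega, by omega⟩, hy'.2, by omega, by omega⟩
  · intro s hs
    rw [Finset.mem_filter, Finset.mem_Icc] at hs
    rw [Finset.mem_filter, Finset.mem_Icc]
    refine ⟨⟨hs.2.2.1, hs.2.2.2⟩, ?_⟩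
    have e : y + s - y = s := by ring
    rw [e]
    exact hs.2.1
  · intro y' _
    ring
  · intro s _
    ring
  · intro y' _
    have e : y + (y' - y) = y' := by ring
    rw [e]

end Pool.Agent.H56.DP
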